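import Pool.Agent.MWKP.Stmts

/-!
# MWKP, row PUR: the key lemma
-/

namespace Pool.Agent.MWKP.H22

open Pool.Agent.Helper14_MV Pool.Agent.Helper2_MV Pool.Agent.MWK

/-! ### powers and counts -/

theorem count_pw (k : ℕ) (X : List ℕ) (l : ℕ) : (pw k X).count l = k * X.count l := by
  unfold pw
  induction k with
  | zero => simp
  | succ k ih =>
    rw [List.replicate_succ, List.flatten_cons, List.count_append, ih]
    ring

theorem mem_pw {k : ℕ} {X : List ℕ} {l : ℕ} (h : l ∈ pw k X) : l ∈ X ∧ k ≠ 0 := by
  unfold pw at h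
  rw [List.mem_flatten] at h
  obtain ⟨Y, hY, hl⟩ := h
  rw [List.mem_replicate] at hY
  exact ⟨hY.2 ▸ hl, hY.1⟩

theorem count_flatMap_sum (g : ℕ → List ℕ) (l : ℕ) {L : List ℕ} :
    ∀ B : List ℕ, (∀ z ∈ B, z ∈ L) →
      (B.flatMap g).count l = ∑ z ∈ L.toFinset, B.count z * (g z).count l := by
  intro B
  induction B with
  | nil => intro _; simp
  | cons b B ih =>
    intro h
    rw [List.flatMap_cons, List.count_append, ih (fun z hz => h z (List.mem_cons_of_mem _ hz))]
    have e : ∀ z ∈ L.toFinset, (b :: B).count z * (g z).count l =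
        B.count z * (g z).count l + (if b = z then (g z).count l else 0) := by
      intro z _
      rw [List.count_cons]
      by_cases hbz : b = z
      · subst hbz
        simp
        ring
      · simp [hbz]
    rw [Finset.sum_congr rfl e, Finset.sum_add_distrib, Finset.sum_ite_eq]
    have hb : b ∈ L.toFinset := by
      rw [List.mem_toFinset]
      exact h b (by simp)
    rw [if_pos hb, add_comm]

/-- the inserted word -/
def Nf (L : List ℕ) (g : ℕ → List ℕ) (ξ : ℕ → ℕ → ℕ) (s : ℕ) : List ℕ :=
  L.flatMap (fun z => pw (ξ s z) (g z))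

theorem count_Nf {L : List ℕ} (hL : L.Nodup) (g : ℕ → List ℕ) (ξ : ℕ → ℕ → ℕ) (s l : ℕ) :
    (Nf L g ξ s).count l = ∑ z ∈ L.toFinset, ξ s z * (g z).count l := by
  unfold Nf
  rw [List.count_flatMap, List.sum_toFinset _ hL]
  apply congrArg
  apply List.map_congr_left
  intro z _
  simp only [Function.comp_apply]
  exact count_pw _ _ _

theorem mem_Nf {L : List ℕ} {g : ℕ → List ℕ} {ξ : ℕ → ℕ → ℕ} {s l : ℕ} (h : l ∈ Nf L g ξ s) :
    ∃ z ∈ L, l ∈ g z ∧ ξ s z ≠ 0 := by
  unfold Nf at h
  rw [List.mem_flatMap] at h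
  obtain ⟨z, hz, hl⟩ := h
  exact ⟨z, hz, (mem_pw hl).1, (mem_pw hl).2⟩

/-! ### families -/

def fam (f : ℕ → List ℕ) : ℕ → List (List ℕ) → List (List ℕ)
  | _, [] => []
  | s, _ :: qs => f s :: fam f (s + 1) qs

theorem fam_length (f : ℕ → List ℕ) : ∀ (qs : List (List ℕ)) (s : ℕ),
    (fam f s qs).length = qs.length
  | [], _ => rfl
  | _ :: qs, s => by
    rw [fam, List.length_cons, List.length_cons, fam_length f qs]

theorem fam_get (f : ℕ → List ℕ) : ∀ (qs : List (List ℕ)) (s i : ℕ) (F : List ℕ),
    (fam f s qs)[i]? = some F → i < qs.length ∧ F = f (s + i)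
  | [], s, i, F, h => by simp [fam] at h
  | _ :: qs, s, 0, F, h => by
    simp only [fam, List.getElem?_cons_zero, Option.some.injEq] at h
    exact ⟨by simp, by rw [← h, Nat.add_zero]⟩
  | _ :: qs, s, i + 1, F, h => by
    rw [fam, List.getElem?_cons_succ] at h
    obtain ⟨h1, h2⟩ := fam_get f qs (s + 1) i F h
    refine ⟨by rw [List.length_cons]; omega, ?_⟩
    rw [h2]
    apply congrArg
    omega

theorem ins_itl (L : List ℕ) (g : ℕ → List ℕ) (ξ : ℕ → ℕ → ℕ) : ∀ (qs : List (List ℕ)) (s : ℕ),
    ins L g ξ s qs = itl qs (fam (Nf L g ξ) s qs)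
  | [], _ => rfl
  | q :: qs, s => by
    rw [ins, fam, itl, ins_itl L g ξ qs (s + 1)]
    rfl

def segN (N : ℕ → List ℕ) : ℕ → List (List ℕ) → List (List ℕ)
  | _, [] => []
  | s, q :: qs => (q ++ N s) :: segN N (s + 1) qs

theorem segN_length (N : ℕ → List ℕ) : ∀ (qs : List (List ℕ)) (s : ℕ),
    (segN N s qs).length = qs.length
  | [], _ => rfl
  | _ :: qs, s => by
    rw [segN, List.length_cons, List.length_cons, segN_length N qs]

theorem segN_flatten (L : List ℕ) (g : ℕ → List ℕ) (ξ : ℕ → ℕ → ℕ) :
    ∀ (qs : List (List ℕ)) (s : ℕ), (segN (Nf L g ξ) s qs).flatten = ins L g ξ s qs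
  | [], _ => rfl
  | q :: qs, s => by
    rw [segN, ins, List.flatten_cons, segN_flatten L g ξ qs (s + 1)]
    rfl

theorem ins_segN (L : List ℕ) (g : ℕ → List ℕ) (ξ : ℕ → ℕ → ℕ) (N : ℕ → List ℕ) :
    ∀ (qs : List (List ℕ)) (s : ℕ), ins L g ξ s (segN N (s + 1) qs) =
      itl qs (fam (fun i => N (i + 1) ++ Nf L g ξ i) s qs)
  | [], _ => rfl
  | q :: qs, s => by
    rw [segN, ins, fam, itl, ins_segN L g ξ N qs (s + 1)]
    simp only [Nf, List.append_assoc]

/-! ### conditions -/

theorem okm' {qs : List (List ℕ)} {A A' p p' : List ℕ} (h : Ok A p qs)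
    (hA : ∀ l, A.count l ≤ A'.count l) (hp : ∀ z ∈ p', z ∈ p ∨ 2 ≤ A'.count z) :
    Ok A' p' qs := by
  cases qs with
  | nil => trivial
  | cons q qs =>
    obtain ⟨h1, h2⟩ := h
    refine ⟨fun z hz => ?_, T.okm qs _ _ _ _ h2 (fun l => ?_) (fun z hz => hz)⟩
    · rw [List.count_append]
      rcases hp z hz with h3 | h3
      · have h4 := h1 z h3
        have h5 := hA z
        rw [List.count_append] at h4
        omega
      · omega
    · rw [List.count_append, List.count_append]
      have := hA l
      omega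

theorem take_le (l : ℕ) : ∀ (qs : List (List ℕ)) (a b : ℕ), a ≤ b →
    ((qs.take a).flatten).count l ≤ ((qs.take b).flatten).count l
  | [], a, b, _ => by simp
  | q :: qs, 0, b, _ => by simp
  | q :: qs, a + 1, 0, h => by omega
  | q :: qs, a + 1, b + 1, h => by
    rw [List.take_succ_cons, List.take_succ_cons, List.flatten_cons, List.flatten_cons,
      List.count_append, List.count_append]
    have := take_le l qs a b (by omega)
    omega

theorem ok_segN (N : ℕ → List ℕ) : ∀ (qs : List (List ℕ)) (s : ℕ) (A p : List ℕ), Ok A p qs →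
    (∀ i < qs.length, ∀ l ∈ N (s + i), 2 ≤ (A ++ (qs.take (i + 1)).flatten).count l) →
      Ok A p (segN N s qs)
  | [], _, _, _, _, _ => trivial
  | q :: qs, s, A, p, h, hN => by
    obtain ⟨h1, h2⟩ := h
    have hN0 : ∀ l ∈ N s, 2 ≤ (A ++ q).count l := by
      intro l hl
      have := hN 0 (by simp) l (by simpa using hl)
      simpa using this
    refine ⟨fun z hz => ?_, ?_⟩
    · have h3 := h1 z hz
      rw [List.count_append] at h3
      rw [List.count_append, List.count_append]
      omega
    · apply ok_segN N qs (s + 1)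
      · apply okm' h2
        · intro l
          simp only [List.count_append]
          omega
        · intro z hz
          rcases List.mem_append.1 hz with h3 | h3
          · exact Or.inl h3
          · right
            have := hN0 z h3
            simp only [List.count_append] at this ⊢
            omega
      · intro i hi l hl
        have h3 := hN (i + 1) (by rw [List.length_cons]; omega) l (by
          have e : s + (i + 1) = s + 1 + i := by omega
          rw [e]
          exact hl)
        rw [List.take_succ_cons, List.flatten_cons] at h3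
        simp only [List.count_append] at h3 ⊢
        omega

/-- dead letters -/
theorem okd_dead {g : ℕ → List ℕ} {d k : ℕ} {L P A q : List ℕ} {qs : List (List ℕ)}
    (h : Okd g d k L P A (q :: qs)) {z i l : ℕ} (hz : z ∈ L) (hl : l ∈ g z)
    (hi : z = d → k ≤ i) (hi' : i < (q :: qs).length) :
    2 ≤ (P ++ A.flatMap g ++ ((q :: qs).take (i + 1)).flatten).count l := by
  obtain ⟨⟨h1, _⟩, h2⟩ := h
  by_cases hzd : z = d
  · subst hzd
    have h3 := h2 (lt_of_le_of_lt (hi rfl) hi') l hl
    have h4 := take_le l (q :: qs) (k + 1) (i + 1) (by have := hi rfl; omega)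
    rw [List.count_append] at h3 ⊢
    omega
  · have h3 := h1 l (by
      rw [List.mem_flatMap]
      refine ⟨z, ?_, hl⟩
      rw [List.mem_filter]
      exact ⟨hz, by simpa using hzd⟩)
    rw [List.take_succ_cons, List.flatten_cons]
    simp only [List.count_append] at h3 ⊢
    omega

/-- the step -/
theorem step (h1 : KddStmt) (h2 : KitStmt) {n : ℕ} {θ : FIC} (hK : Kn n θ) {d k c m : ℕ}
    {L A B A' B' : List ℕ} {ξ' : ℕ → ℕ → ℕ} (hdL : d ∈ L) (hL : L.Nodup) (hc : c ∉ L)
    (hA : ∀ z ∈ A, z ∈ L) (hA' : ∀ z ∈ A', z ∈ L)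
    (hB : ∀ z ∈ B, z ∈ L ∧ (z = d → k = 0)) (hB' : ∀ z ∈ B', z ∈ L ∧ (z = d → k = 0))
    (hξ0 : ∀ i < k - 1, ξ' i d = 0)
    (hξ : ∀ (g : ℕ → List ℕ) (P : List ℕ) (qs : List (List ℕ)) (R : List ℕ), qs.length = m →
      Okd g d (k - 1) (c :: L) P (A ++ c :: B) qs → Okd g d (k - 1) (c :: L) P (A' ++ c :: B') qs →
        RR θ (P ++ (A ++ c :: B).flatMap g ++ qs.flatten ++ R)
          (P ++ (A' ++ c :: B').flatMap g ++ ins (c :: L) g ξ' 0 qs ++ R)) :
    ∃ ξ : ℕ → ℕ → ℕ, (∀ i < k, ξ i d = 0) ∧
      ∀ (g : ℕ → List ℕ) (P : List ℕ) (qs : List (List ℕ)) (R : List ℕ), qs.length = m + 1 →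
        Okd g d k L P A qs → Okd g d k L P A' qs →
          RR θ (P ++ A.flatMap g ++ qs.flatten ++ R)
            (P ++ A'.flatMap g ++ ins L g ξ 0 qs ++ R) := by
  have hcd : c ≠ d := by
    rintro rfl
    exact hc hdL
  -- exponents
  set ξ : ℕ → ℕ → ℕ := fun i z => match i with
    | 0 => (n - 1) * B.count z + B'.count z
    | i + 1 => ξ' i z + (n - 1) * ξ' i c * B.count z with hξdef
  have hξz : ∀ i < k, ξ i d = 0 := by
    intro i hi
    have hb : B.count d = 0 := List.count_eq_zero.2 (fun hm => by
      have := (hB d hm).2 rfl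
      omega)
    have hb' : B'.count d = 0 := List.count_eq_zero.2 (fun hm => by
      have := (hB' d hm).2 rfl
      omega)
    cases i with
    | zero => simp [hξdef, hb, hb']
    | succ i =>
      have := hξ0 i (by omega)
      simp [hξdef, hb, this]
  refine ⟨ξ, hξz, ?_⟩
  intro g P qs R hlen hO hO'
  cases qs with
  | nil => simp at hlen
  | cons q qs =>
  have hlen' : qs.length = m := by simpa using hlen
  have hn := hK.pos
  -- dead letters after the first segment
  have dB : ∀ {X Y : List ℕ}, Okd g d k L P X (q :: qs) → (∀ z ∈ Y, z ∈ L ∧ (z = d → k = 0)) →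
      ∀ l ∈ Y.flatMap g, 2 ≤ (P ++ X.flatMap g ++ q).count l := by
    intro X Y hX hY l hl
    rw [List.mem_flatMap] at hl
    obtain ⟨z, hz, hl⟩ := hl
    have := okd_dead hX (hY z hz).1 hl (i := 0) (fun h => ((hY z hz).2 h).le) (by simp)
    simpa using this
  -- (I)
  set g1 : ℕ → List ℕ := fun z => if z = c then q ++ pw (n - 1) (B.flatMap g) else g z with hg1
  have hg1c : g1 c = q ++ pw (n - 1) (B.flatMap g) := by simp [hg1]
  have hg1z : ∀ z ∈ L, g1 z = g z := by
    intro z hz
    have : z ≠ c := by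
      rintro rfl
      exact hc hz
    simp [hg1, this]
  have fm : ∀ X : List ℕ, (∀ z ∈ X, z ∈ L) → X.flatMap g1 = X.flatMap g := by
    intro X hX
    apply List.flatMap_congr
    intro z hz
    exact hg1z z (hX z hz)
  have im : ∀ X Y : List ℕ, (∀ z ∈ X, z ∈ L) → (∀ z ∈ Y, z ∈ L) → (X ++ c :: Y).flatMap g1 =
      X.flatMap g ++ (q ++ pw (n - 1) (B.flatMap g)) ++ Y.flatMap g := by
    intro X Y hX hY
    rw [List.flatMap_append, List.flatMap_cons, fm X hX, fm Y hY, hg1c]
    simp only [List.append_assoc]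
  have ok1 : ∀ X Y : List ℕ, (∀ z ∈ X, z ∈ L) → (∀ z ∈ Y, z ∈ L) →
      Okd g d k L P X (q :: qs) → Okd g1 d (k - 1) (c :: L) P (X ++ c :: Y) qs := by
    intro X Y hX hY hOX
    have hOX' := hOX
    obtain ⟨⟨_, h3⟩, _⟩ := hOX'
    have cnt : ∀ l, (P ++ X.flatMap g ++ q).count l ≤ (P ++ (X ++ c :: Y).flatMap g1).count l := by
      intro l
      rw [im X Y hX hY]
      simp only [List.count_append]
      omega
    refine ⟨?_, ?_⟩
    · apply okm' h3 cnt
      intro z hz
      rw [List.mem_flatMap] at hz
      obtain ⟨t, ht, hz⟩ := hz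
      rw [List.mem_filter] at ht
      obtain ⟨ht, htd⟩ := ht
      rcases List.mem_cons.1 ht with rfl | htL
      · rw [hg1c] at hz
        rcases List.mem_append.1 hz with hz | hz
        · exact Or.inl hz
        · right
          exact (dB hOX hB z (mem_pw hz).1).trans (cnt z)
      · right
        rw [hg1z t htL] at hz
        have := okd_dead hOX htL hz (i := 0) (fun h => by
          subst h
          simp at htd) (by simp)
        refine le_trans ?_ (cnt z)
        simpa using this
    · intro hk l hl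
      rw [hg1z d hdL] at hl
      have := okd_dead hOX hdL hl (i := k - 1 + 1) (fun _ => by omega)
        (by rw [List.length_cons]; omega)
      rw [List.take_succ_cons, List.flatten_cons] at this
      have h4 := cnt l
      simp only [List.count_append] at this h4 ⊢
      omega
  have I := hξ g1 P qs R hlen' (ok1 A B hA (fun z hz => (hB z hz).1) hO)
    (ok1 A' B' hA' (fun z hz => (hB' z hz).1) hO')
  rw [im A B hA (fun z hz => (hB z hz).1), im A' B' hA' (fun z hz => (hB' z hz).1)] at I
  -- left side
  have I1 : RR θ (P ++ A.flatMap g ++ (q :: qs).flatten ++ R)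
      (P ++ (A.flatMap g ++ (q ++ pw (n - 1) (B.flatMap g)) ++ B.flatMap g) ++
        qs.flatten ++ R) := by
    have := h1 n θ hK (P ++ A.flatMap g ++ q) [] (pw (n - 1) (B.flatMap g) ++ B.flatMap g)
      (qs.flatten ++ R) (by simp) (by
        intro l hl
        rcases List.mem_append.1 hl with hl | hl
        · exact dB hO hB l (mem_pw hl).1
        · exact dB hO hB l hl) (by
        intro l
        rw [List.count_append, count_pw, List.count_nil]
        have e : (n - 1) * (B.flatMap g).count l + (B.flatMap g).count l =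
            n * (B.flatMap g).count l := by
          obtain ⟨n', rfl⟩ : ∃ n', n = n' + 1 := ⟨n - 1, by omega⟩
          rw [Nat.add_sub_cancel]
          ring
        rw [e]
        exact (Nat.modEq_zero_iff_dvd.2 (Dvd.intro _ rfl)).symm)
    simpa only [List.flatten_cons, List.append_assoc, List.nil_append] using this
  -- counts
  have cB := fun l => count_flatMap_sum (L := L) g l B (fun z hz => (hB z hz).1)
  have cB' := fun l => count_flatMap_sum (L := L) g l B' (fun z hz => (hB' z hz).1)
  -- the first gap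
  have dN0 : ∀ l ∈ Nf L g ξ 0, 2 ≤ (P ++ A'.flatMap g ++ q).count l := by
    intro l hl
    obtain ⟨z, hz, hlz, hne⟩ := mem_Nf hl
    have := okd_dead hO' hz hlz (i := 0) (fun h => by
      subst h
      by_contra hk
      exact hne (hξz 0 (by omega))) (by simp)
    simpa using this
  have I2 : RR θ (P ++ (A'.flatMap g ++ (q ++ pw (n - 1) (B.flatMap g)) ++ B'.flatMap g) ++
      ins (c :: L) g1 ξ' 0 qs ++ R)
      (P ++ A'.flatMap g ++ q ++ Nf L g ξ 0 ++ ins (c :: L) g1 ξ' 0 qs ++ R) := by
    have := h1 n θ hK (P ++ A'.flatMap g ++ q) (pw (n - 1) (B.flatMap g) ++ B'.flatMap g)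
      (Nf L g ξ 0) (ins (c :: L) g1 ξ' 0 qs ++ R) (by
        intro l hl
        rcases List.mem_append.1 hl with hl | hl
        · exact dB hO' hB l (mem_pw hl).1
        · exact dB hO' hB' l hl) dN0 (by
        intro l
        rw [List.count_append, count_pw, cB, cB', count_Nf hL, Finset.mul_sum,
          ← Finset.sum_add_distrib]
        rw [Finset.sum_congr rfl (fun z _ => ?_)]
        simp only [hξdef]
        ring)
    simpa only [List.append_assoc] using this
  have I3 : RR θ (P ++ A.flatMap g ++ (q :: qs).flatten ++ R)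
      (P ++ A'.flatMap g ++ q ++ Nf L g ξ 0 ++ ins (c :: L) g1 ξ' 0 qs ++ R) :=
    θ.trans I1 (θ.trans I I2)
  -- dead letters of the later gaps
  have dN : ∀ i < (q :: qs).length, ∀ l ∈ Nf L g ξ i,
      2 ≤ (P ++ A'.flatMap g ++ ((q :: qs).take (i + 1)).flatten).count l := by
    intro i hi l hl
    obtain ⟨z, hz, hlz, hne⟩ := mem_Nf hl
    exact okd_dead hO' hz hlz (fun h => by
      subst h
      by_contra hk
      exact hne (hξz i (by omega))) hi
  have hOq : Ok (P ++ A'.flatMap g ++ q) q qs := hO'.1.2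
  -- (II)
  set g2 : ℕ → List ℕ := fun z => if z = c then q else [] with hg2
  have hg2c : g2 c = q := by simp [hg2]
  have hg2z : ∀ z ∈ L, g2 z = [] := by
    intro z hz
    have : z ≠ c := by
      rintro rfl
      exact hc hz
    simp [hg2, this]
  have fm2 : ∀ X : List ℕ, (∀ z ∈ X, z ∈ L) → X.flatMap g2 = [] := by
    intro X hX
    rw [List.flatMap_eq_nil_iff]
    intro z hz
    exact hg2z z (hX z hz)
  have im2 : ∀ X Y : List ℕ, (∀ z ∈ X, z ∈ L) → (∀ z ∈ Y, z ∈ L) →
      (X ++ c :: Y).flatMap g2 = q := by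
    intro X Y hX hY
    rw [List.flatMap_append, List.flatMap_cons, fm2 X hX, fm2 Y hY, hg2c]
    simp
  have fl2 : ((c :: L).filter (fun z => decide (z ≠ d))).flatMap g2 = q := by
    rw [List.filter_cons_of_pos (by simpa using hcd), List.flatMap_cons, fm2 _ (fun z hz =>
      (List.mem_filter.1 hz).1), hg2c]
    simp
  have Nf2 : ∀ i, Nf (c :: L) g2 ξ' i = pw (ξ' i c) q := by
    intro i
    unfold Nf
    rw [List.flatMap_cons, hg2c]
    have : L.flatMap (fun z => pw (ξ' i z) (g2 z)) = [] := by
      rw [List.flatMap_eq_nil_iff]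
      intro z hz
      rw [hg2z z hz]
      simp [pw]
    rw [this, List.append_nil]
  cases qs with
  | nil =>
    have : RR θ (P ++ A.flatMap g ++ [q].flatten ++ R)
        (P ++ A'.flatMap g ++ ins L g ξ 0 [q] ++ R) := by
      simpa only [ins, Nf, List.append_nil, List.append_assoc] using I3
    exact this
  | cons q1 r =>
  have II := hξ g2 (P ++ A'.flatMap g) ((Nf L g ξ 0 ++ q1 ++ Nf L g ξ 1) :: segN (Nf L g ξ) 2 r) R
    (by rw [List.length_cons, segN_length]; simpa using hlen')
  have hOkk : Ok (P ++ A'.flatMap g ++ q) q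
      ((Nf L g ξ 0 ++ q1 ++ Nf L g ξ 1) :: segN (Nf L g ξ) 2 r) := by
    have h3 := ok_segN (Nf L g ξ) (q1 :: r) 1 _ _ hOq (by
      intro i hi l hl
      have h4 := dN (i + 1) (by
        simp only [List.length_cons] at hi ⊢
        omega) l (by
          have e : 1 + i = i + 1 := by omega
          rw [← e]
          exact hl)
      rw [List.take_succ_cons, List.flatten_cons] at h4
      simpa only [List.append_assoc] using h4)
    obtain ⟨h4, h5⟩ := h3
    refine ⟨?_, ?_⟩
    · intro z hz
      have := h4 z hz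
      simp only [List.count_append] at this ⊢
      omega
    · apply okm' h5
      · intro l
        simp only [List.count_append]
        omega
      · intro z hz
        rcases List.mem_append.1 hz with hz | hz
        · rcases List.mem_append.1 hz with hz | hz
          · right
            have := dN0 z hz
            simp only [List.count_append] at this ⊢
            omega
          · exact Or.inl (List.mem_append_left _ hz)
        · exact Or.inl (List.mem_append_right _ hz)
  have ok2 : ∀ X Y : List ℕ, (∀ z ∈ X, z ∈ L) → (∀ z ∈ Y, z ∈ L) →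
      Okd g2 d (k - 1) (c :: L) (P ++ A'.flatMap g) (X ++ c :: Y)
        ((Nf L g ξ 0 ++ q1 ++ Nf L g ξ 1) :: segN (Nf L g ξ) 2 r) := by
    intro X Y hX hY
    refine ⟨?_, ?_⟩
    · rw [im2 X Y hX hY, fl2]
      exact hOkk
    · intro _ l hl
      rw [hg2z d hdL] at hl
      simp at hl
  have II' := II (ok2 A B hA (fun z hz => (hB z hz).1)) (ok2 A' B' hA' (fun z hz => (hB' z hz).1))
  rw [im2 A B hA (fun z hz => (hB z hz).1), im2 A' B' hA' (fun z hz => (hB' z hz).1)] at II'
  -- compare
  have fI : RR θ (P ++ A'.flatMap g ++ q ++ Nf L g ξ 0 ++ ins (c :: L) g1 ξ' 0 (q1 :: r) ++ R)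
      (P ++ A'.flatMap g ++ q ++ ins (c :: L) g2 ξ' 0
        ((Nf L g ξ 0 ++ q1 ++ Nf L g ξ 1) :: segN (Nf L g ξ) 2 r) ++ R) := by
    have e2 : P ++ A'.flatMap g ++ q ++ ins (c :: L) g2 ξ' 0
        ((Nf L g ξ 0 ++ q1 ++ Nf L g ξ 1) :: segN (Nf L g ξ) 2 r) ++ R =
        P ++ A'.flatMap g ++ q ++ Nf L g ξ 0 ++
          itl (q1 :: r) (fam (fun i => Nf L g ξ (i + 1) ++ Nf (c :: L) g2 ξ' i) 0 (q1 :: r)) ++
            R := by
      rw [← ins_segN, segN, ins, ins]
      simp only [List.append_assoc]
    rw [e2, ins_itl]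
    apply h2 n θ hK
    · rw [fam_length]
    · rw [fam_length]
    · intro i F hF l hl
      obtain ⟨hi, rfl⟩ := fam_get _ _ _ _ _ hF
      rw [Nat.zero_add] at hl
      obtain ⟨z, hz, hlz, hne⟩ := mem_Nf hl
      have key : 2 ≤ (P ++ A'.flatMap g ++ ((q :: q1 :: r).take (i + 1 + 1)).flatten).count l := by
        rcases List.mem_cons.1 hz with rfl | hzL
        · rw [hg1c] at hlz
          rcases List.mem_append.1 hlz with hlz | hlz
          · have h3 := hOq.1 l hlz
            rw [List.take_succ_cons, List.take_succ_cons, List.flatten_cons, List.flatten_cons]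
            simp only [List.count_append] at h3 ⊢
            omega
          · have h3 := dB hO' hB l (mem_pw hlz).1
            rw [List.take_succ_cons, List.flatten_cons]
            simp only [List.count_append] at h3 ⊢
            omega
        · rw [hg1z z hzL] at hlz
          exact okd_dead hO' hzL hlz (fun h => by
            subst h
            by_contra hk
            exact hne (hξ0 i (by omega))) (by
              rw [List.length_cons]
              omega)
      rw [List.take_succ_cons, List.flatten_cons] at key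
      simp only [List.count_append] at key ⊢
      omega
    · intro i F hF l hl
      obtain ⟨hi, rfl⟩ := fam_get _ _ _ _ _ hF
      rw [Nat.zero_add] at hl
      have key : 2 ≤ (P ++ A'.flatMap g ++ ((q :: q1 :: r).take (i + 1 + 1)).flatten).count l := by
        rcases List.mem_append.1 hl with hl | hl
        · exact dN (i + 1) (by rw [List.length_cons]; omega) l hl
        · rw [Nf2] at hl
          have h3 := hOq.1 l (mem_pw hl).1
          rw [List.take_succ_cons, List.take_succ_cons, List.flatten_cons, List.flatten_cons]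
          simp only [List.count_append] at h3 ⊢
          omega
      rw [List.take_succ_cons, List.flatten_cons] at key
      simp only [List.count_append] at key ⊢
      omega
    · intro i F F' hF hF' l
      obtain ⟨hi, rfl⟩ := fam_get _ _ _ _ _ hF
      obtain ⟨hi, rfl⟩ := fam_get _ _ _ _ _ hF'
      rw [Nat.zero_add, List.count_append, Nf2, count_pw, count_Nf hL]
      have e3 : (Nf (c :: L) g1 ξ' i).count l = ξ' i c * (q.count l +
          (n - 1) * ∑ z ∈ L.toFinset, B.count z * (g z).count l) +
            ∑ z ∈ L.toFinset, ξ' i z * (g z).count l := by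
        have : Nf (c :: L) g1 ξ' i = pw (ξ' i c) (g1 c) ++ Nf L g1 ξ' i := by
          unfold Nf
          rw [List.flatMap_cons]
        rw [this, List.count_append, count_pw, hg1c, List.count_append, count_pw, cB,
          count_Nf hL]
        apply congrArg
        apply Finset.sum_congr rfl
        intro z hz
        rw [hg1z z (List.mem_toFinset.1 hz)]
      rw [e3]
      have e4 : ∑ z ∈ L.toFinset, ξ (i + 1) z * (g z).count l =
          ∑ z ∈ L.toFinset, ξ' i z * (g z).count l +
            ξ' i c * ((n - 1) * ∑ z ∈ L.toFinset, B.count z * (g z).count l) := by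
        rw [Finset.mul_sum, Finset.mul_sum, ← Finset.sum_add_distrib]
        apply Finset.sum_congr rfl
        intro z _
        simp only [hξdef]
        ring
      rw [e4]
      have e5 : ξ' i c * (q.count l +
          (n - 1) * ∑ z ∈ L.toFinset, B.count z * (g z).count l) +
            ∑ z ∈ L.toFinset, ξ' i z * (g z).count l =
          ∑ z ∈ L.toFinset, ξ' i z * (g z).count l +
            ξ' i c * ((n - 1) * ∑ z ∈ L.toFinset, B.count z * (g z).count l) +
              ξ' i c * q.count l := by ring
      rw [e5]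
  have III := θ.trans I3 (θ.trans fI (θ.symm II'))
  have e6 : P ++ A'.flatMap g ++ ins L g ξ 0 (q :: q1 :: r) ++ R =
      P ++ A'.flatMap g ++ q ++ ((Nf L g ξ 0 ++ q1 ++ Nf L g ξ 1) ::
        segN (Nf L g ξ) 2 r).flatten ++ R := by
    rw [List.flatten_cons, segN_flatten, ins, ins]
    simp only [List.append_assoc]
    rfl
  rw [e6]
  exact III

theorem sp_step {d k : ℕ} {L : List ℕ} {c : ℕ} {cs u : List ℕ} (h : Sp d k L (c :: cs) u) :
    c ∉ L ∧ ∃ A B, hd (c :: cs) u = A ∧ hd cs u = A ++ c :: B ∧ (∀ z ∈ A, z ∈ L) ∧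
      (∀ z ∈ B, z ∈ L ∧ (z = d → k = 0)) ∧ Sp d (k - 1) (c :: L) cs u := by
  obtain ⟨hc, A, T, rfl, hA, hT⟩ := h
  refine ⟨hc, ?_⟩
  have hcA : c ∉ A := fun hm => hc (hA c hm)
  cases cs with
  | nil =>
    refine ⟨A, T, pre_split hcA T, rfl, hA, hT, ?_⟩
    intro z hz
    rcases List.mem_append.1 hz with hz | hz
    · exact List.mem_cons_of_mem _ (hA z hz)
    · rcases List.mem_cons.1 hz with rfl | hz
      · simp
      · exact List.mem_cons_of_mem _ (hT z hz).1
  | cons c' cs =>
    obtain ⟨hc', B, T', rfl, hB, hT'⟩ := hT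
    have hc'A : c' ∉ A ++ c :: B := by
      intro hm
      rcases List.mem_append.1 hm with hz | hz
      · exact hc' (List.mem_cons_of_mem _ (hA _ hz))
      · rcases List.mem_cons.1 hz with rfl | hz
        · exact hc' (by simp)
        · exact hc' (List.mem_cons_of_mem _ (hB _ hz).1)
    have e : A ++ c :: (B ++ c' :: T') = (A ++ c :: B) ++ c' :: T' := by simp
    refine ⟨A, B, pre_split hcA _, ?_, hA, hB, hc', A ++ c :: B, T', e, ?_, hT'⟩
    · show pre (A ++ c :: (B ++ c' :: T')) c' = _
      rw [e]
      exact pre_split hc'A T'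
    · intro z hz
      rcases List.mem_append.1 hz with hz | hz
      · exact List.mem_cons_of_mem _ (hA z hz)
      · rcases List.mem_cons.1 hz with rfl | hz
        · simp
        · exact List.mem_cons_of_mem _ (hB z hz).1

/-- **PUR** -/
theorem pur (h1 : KddStmt) (h2 : KitStmt) : PurStmt := by
  intro n θ hK d cs
  induction cs with
  | nil =>
    intro k L u v _ _ _ _ huv
    refine ⟨fun _ _ => 0, fun _ _ => rfl, ?_⟩
    intro g P qs R hlen _ _
    have hq : qs = [] := List.length_eq_zero_iff.1 (by simpa using hlen)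
    subst hq
    exact ((((RR.refl P).append (huv.sub g)).append (RR.refl [])).append (RR.refl R))
  | cons c cs ih =>
    intro k L u v hdL hL hu hv huv
    obtain ⟨hc, A, B, hA1, hA2, hA, hB, hSu⟩ := sp_step hu
    obtain ⟨_, A', B', hA1', hA2', hA', hB', hSv⟩ := sp_step hv
    obtain ⟨ξ', hξ0, hξ⟩ := ih (k - 1) (c :: L) u v (List.mem_cons_of_mem _ hdL)
      (List.nodup_cons.2 ⟨hc, hL⟩) hSu hSv huv
    rw [hA2, hA2'] at hξ
    rw [hA1, hA1']
    exact step h1 h2 hK hdL hL hc hA hA' hB hB' hξ0 hξ

end Pool.Agent.MWKP.H22
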